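import Mathlib

set_option autoImplicit false

namespace Pool.Agent.Y322.Null

open Real
open scoped RealInnerProductSpace

universe u v

variable {H : Type u} [NormedAddCommGroup H] [InnerProductSpace ℝ H]

/-- three signs -/
def sg (s : Fin 3) : ℝ := if s = 0 then 0 else if s = 1 then 1 else -1

/-- signed combination coded by `c` -/
def comb {ι : Type v} (w : ι → H) {n : ℕ} (c : Fin n → ι × Fin 3) : H :=
  ∑ l, sg (c l).2 • w (c l).1

lemma comb_cons {ι : Type v} (w : ι → H) {n : ℕ} (a : ι × Fin 3) (c : Fin n → ι × Fin 3) :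
    comb w (Fin.cons a c : Fin (n + 1) → ι × Fin 3) = sg a.2 • w a.1 + comb w c := by
  unfold comb
  rw [Fin.sum_univ_succ]
  simp

/-- Sparse approximation: the functionals `⟪·, w i⟫` on the ball of radius `√n ε` are matched up to
`ε` by signed combinations of at most `n` of the vectors `ε • w i`. -/
lemma sparse {ι : Type v} [Nonempty ι] (w : ι → H) (hw : ∀ i, ‖w i‖ ≤ 1) (ε : ℝ) (hε : 0 < ε)
    (n : ℕ) : ∀ x : H, ‖x‖ ^ 2 ≤ n * ε ^ 2 →
      ∃ c : Fin n → ι × Fin 3, ∀ i, |⟪x - ε • comb w c, w i⟫| ≤ ε := by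
  induction n with
  | zero =>
    intro x hx
    have h0 : ‖x‖ ^ 2 ≤ 0 := by simpa using hx
    have h1 : ‖x‖ = 0 := by
      have := sq_nonneg ‖x‖
      have h2 : ‖x‖ ^ 2 = 0 := le_antisymm h0 this
      exact pow_eq_zero_iff (two_ne_zero) |>.1 h2
    have hx0 : x = 0 := norm_eq_zero.1 h1
    refine ⟨fun l => l.elim0, fun i => ?_⟩
    simp [comb, hx0, hε.le]
  | succ n ih =>
    intro x hx
    by_cases hall : ∀ i, |⟪x, w i⟫| ≤ ε
    · obtain ⟨i0⟩ := ‹Nonempty ι›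
      refine ⟨fun _ => (i0, 0), fun i => ?_⟩
      have : comb w (fun _ : Fin (n + 1) => ((i0, 0) : ι × Fin 3)) = 0 := by
        simp [comb, sg]
      rw [this]
      simpa using hall i
    · push Not at hall
      obtain ⟨i, hi⟩ := hall
      obtain ⟨s, hs1, hs2⟩ : ∃ s : Fin 3, sg s * ⟪x, w i⟫ = |⟪x, w i⟫| ∧ sg s ^ 2 = 1 := by
        rcases le_total 0 ⟪x, w i⟫ with h | h
        · exact ⟨1, by simp [sg, abs_of_nonneg h], by simp [sg]⟩
        · refine ⟨2, ?_, ?_⟩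
          · rw [abs_of_nonpos h]
            have : sg 2 = -1 := by simp [sg]
            rw [this]; ring
          · have : sg 2 = -1 := by simp [sg]
            rw [this]; ring
      set x' : H := x - (ε * sg s) • w i with hx'
      have hn : ‖x'‖ ^ 2 ≤ n * ε ^ 2 := by
        have h1 : ‖x'‖ ^ 2 = ‖x‖ ^ 2 - 2 * ⟪x, (ε * sg s) • w i⟫ + ‖(ε * sg s) • w i‖ ^ 2 := by
          rw [hx']; exact norm_sub_sq_real x _
        have h2 : ⟪x, (ε * sg s) • w i⟫ = ε * |⟪x, w i⟫| := by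
          rw [inner_smul_right, mul_assoc, hs1]
        have h3 : ‖(ε * sg s) • w i‖ ^ 2 ≤ ε ^ 2 := by
          rw [norm_smul, mul_pow, Real.norm_eq_abs, sq_abs, mul_pow, hs2, mul_one]
          have : ‖w i‖ ^ 2 ≤ 1 := by
            have := hw i
            have h0 := norm_nonneg (w i)
            nlinarith
          nlinarith [sq_nonneg ε]
        rw [h1, h2]
        push_cast at hx
        nlinarith
      obtain ⟨c, hc⟩ := ih x' hn
      refine ⟨Fin.cons (i, s) c, fun j => ?_⟩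
      rw [comb_cons]
      have : x - ε • (sg s • w i + comb w c) = x' - ε • comb w c := by
        rw [hx', smul_add, smul_smul]; abel
      rw [this]
      exact hc j

/-- the profile function -/
noncomputable def S (r : ℝ) : ℝ := sin (log (1 + r))

lemma abs_log_sub (r s : ℝ) (hr : 0 ≤ r) (hs : 0 ≤ s) :
    |log (1 + r) - log (1 + s)| ≤ |r - s| / (1 + min r s) := by
  wlog h : s ≤ r generalizing r s
  · have := this s r hs hr (le_of_not_ge h)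
    rwa [abs_sub_comm, abs_sub_comm r s, min_comm]
  have h1 : 0 < 1 + s := by linarith
  have h2 : 0 < 1 + r := by linarith
  rw [min_eq_right h, abs_of_nonneg (by linarith : 0 ≤ r - s),
    abs_of_nonneg (sub_nonneg.2 (log_le_log h1 (by linarith))), ← log_div h2.ne' h1.ne']
  have h3 : (1 + r) / (1 + s) = 1 + (r - s) / (1 + s) := by
    field_simp; ring
  rw [h3]
  have h4 : 0 ≤ (r - s) / (1 + s) := div_nonneg (by linarith) h1.le
  have := log_le_sub_one_of_pos (show 0 < 1 + (r - s) / (1 + s) by linarith)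
  linarith

lemma abs_S_sub (r s : ℝ) (hr : 0 ≤ r) (hs : 0 ≤ s) :
    |S r - S s| ≤ |r - s| / (1 + min r s) := by
  refine le_trans ?_ (abs_log_sub r s hr hs)
  unfold S
  exact abs_sin_sub_sin_le _ _

lemma abs_S_le (r : ℝ) : |S r| ≤ 1 := abs_sin_le_one _

/-- the code type -/
abbrev Code (ι : Type v) (K m B : ℕ) : Type v :=
  ι × ((ι × Fin K × (Fin m → ι × Fin 3)) ⊕ (ι × Fin B))

/-- `c` is a code of the point `x` relative to the points `y i` -/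
def Good {ι : Type v} (y : ι → H) (ε : ℝ) {K m B : ℕ} (x : H) : Code ι K m B → Prop
  | (i0, Sum.inl (j, k, c)) =>
      0 < ε * ‖y j - y i0‖ * (1 + ε) ^ (k : ℕ) ∧
      ε * ‖y j - y i0‖ * (1 + ε) ^ (k : ℕ) ≤ ‖x - y i0‖ ∧
      ‖x - y i0‖ ≤ (1 + ε) * (ε * ‖y j - y i0‖ * (1 + ε) ^ (k : ℕ)) ∧
      (∀ i, ‖x - y i0‖ ≤ ‖x - y i‖) ∧
      ∀ i, |⟪(2 * (ε * ‖y j - y i0‖ * (1 + ε) ^ (k : ℕ)))⁻¹ • (x - y i0) -
        ε • comb (fun i => (max (ε * ‖y j - y i0‖ * (1 + ε) ^ (k : ℕ)) ‖y i - y i0‖)⁻¹ •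
          (y i - y i0)) c,
        (max (ε * ‖y j - y i0‖ * (1 + ε) ^ (k : ℕ)) ‖y i - y i0‖)⁻¹ • (y i - y i0)⟫| ≤ ε
  | (i0, Sum.inr (a, b)) =>
      (∀ i, ‖x - y i0‖ ≤ ‖x - y i‖) ∧
      (∀ i, ‖y i - y i0‖ ≤ ‖y a - y i0‖ → ‖y i - y i0‖ ≤ ε * ‖x - y i0‖) ∧
      (∀ i, ‖y a - y i0‖ < ‖y i - y i0‖ → ‖x - y i0‖ ≤ ε * ‖y i - y i0‖) ∧
      |S ‖x - y i0‖ - (-1 + (b : ℕ) * ε)| ≤ ε

/-- One scale: two points with the same code are close for `S ‖· - y i‖`. -/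
lemma close_scale (ε ρ : ℝ) (hε : 0 < ε) (hε1 : ε ≤ 1) (hρ : 0 < ρ) (u u' v w : H)
    (hu1 : ρ ≤ ‖u‖) (hu2 : ‖u‖ ≤ (1 + ε) * ρ) (hu1' : ρ ≤ ‖u'‖) (hu2' : ‖u'‖ ≤ (1 + ε) * ρ)
    (hmin : ‖u‖ ≤ ‖u - v‖) (hmin' : ‖u'‖ ≤ ‖u' - v‖)
    (h : |⟪(2 * ρ)⁻¹ • u - w, (max ρ ‖v‖)⁻¹ • v⟫| ≤ ε)
    (h' : |⟪(2 * ρ)⁻¹ • u' - w, (max ρ ‖v‖)⁻¹ • v⟫| ≤ ε) :
    |S ‖u - v‖ - S ‖u' - v‖| ≤ 22 * ε := by
  set M := max ρ ‖v‖ with hM
  have hM0 : 0 < M := lt_of_lt_of_le hρ (le_max_left _ _)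
  set a := ‖u - v‖ with ha
  set a' := ‖u' - v‖ with ha'
  have ha0 : 0 < a := lt_of_lt_of_le hρ (hu1.trans hmin)
  have ha0' : 0 < a' := lt_of_lt_of_le hρ (hu1'.trans hmin')
  have hMa : M ≤ 2 * a := by
    apply max_le
    · linarith [hu1.trans hmin]
    · have h1 : ‖v‖ ≤ ‖u‖ + ‖u - v‖ := by
        have := norm_sub_le u (u - v)
        simpa using this
      linarith
  have hMa' : M ≤ 2 * a' := by
    apply max_le
    · linarith [hu1'.trans hmin']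
    · have h1 : ‖v‖ ≤ ‖u'‖ + ‖u' - v‖ := by
        have := norm_sub_le u' (u' - v)
        simpa using this
      linarith
  have hsq : a ^ 2 = ‖u‖ ^ 2 - 2 * ⟪u, v⟫ + ‖v‖ ^ 2 := by rw [ha]; exact norm_sub_sq_real u v
  have hsq' : a' ^ 2 = ‖u'‖ ^ 2 - 2 * ⟪u', v⟫ + ‖v‖ ^ 2 := by
    rw [ha']; exact norm_sub_sq_real u' v
  have hin : |⟪u, v⟫ - ⟪u', v⟫| ≤ 4 * ρ * M * ε := by
    have e1 : ⟪(2 * ρ)⁻¹ • u - w, M⁻¹ • v⟫ = (2 * ρ)⁻¹ * M⁻¹ * ⟪u, v⟫ - M⁻¹ * ⟪w, v⟫ := by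
      rw [inner_smul_right, inner_sub_left, inner_smul_left]
      simp only [conj_trivial]
      ring
    have e2 : ⟪(2 * ρ)⁻¹ • u' - w, M⁻¹ • v⟫ = (2 * ρ)⁻¹ * M⁻¹ * ⟪u', v⟫ - M⁻¹ * ⟪w, v⟫ := by
      rw [inner_smul_right, inner_sub_left, inner_smul_left]
      simp only [conj_trivial]
      ring
    rw [e1] at h
    rw [e2] at h'
    have e3 : ⟪u, v⟫ - ⟪u', v⟫ = (2 * ρ * M) * (((2 * ρ)⁻¹ * M⁻¹ * ⟪u, v⟫ - M⁻¹ * ⟪w, v⟫) -
        ((2 * ρ)⁻¹ * M⁻¹ * ⟪u', v⟫ - M⁻¹ * ⟪w, v⟫)) := by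
      field_simp
      ring
    rw [e3, abs_mul, abs_of_pos (by positivity : 0 < 2 * ρ * M)]
    have := abs_sub ((2 * ρ)⁻¹ * M⁻¹ * ⟪u, v⟫ - M⁻¹ * ⟪w, v⟫)
      ((2 * ρ)⁻¹ * M⁻¹ * ⟪u', v⟫ - M⁻¹ * ⟪w, v⟫)
    have h2 : |((2 * ρ)⁻¹ * M⁻¹ * ⟪u, v⟫ - M⁻¹ * ⟪w, v⟫) -
        ((2 * ρ)⁻¹ * M⁻¹ * ⟪u', v⟫ - M⁻¹ * ⟪w, v⟫)| ≤ 2 * ε := by linarith
    calc 2 * ρ * M * _ ≤ 2 * ρ * M * (2 * ε) := by gcongr
      _ = 4 * ρ * M * ε := by ring
  have hρM : ρ ≤ M := le_max_left _ _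
  have hdiff : |a ^ 2 - a' ^ 2| ≤ 11 * ε * M ^ 2 := by
    have e : a ^ 2 - a' ^ 2 = (‖u‖ ^ 2 - ‖u'‖ ^ 2) - 2 * (⟪u, v⟫ - ⟪u', v⟫) := by
      rw [hsq, hsq']; ring
    have h1 : |‖u‖ ^ 2 - ‖u'‖ ^ 2| ≤ 3 * ε * ρ ^ 2 := by
      have b1 : ‖u‖ ^ 2 ≤ ((1 + ε) * ρ) ^ 2 := by gcongr
      have b2 : ρ ^ 2 ≤ ‖u‖ ^ 2 := by gcongr
      have b3 : ‖u'‖ ^ 2 ≤ ((1 + ε) * ρ) ^ 2 := by gcongr
      have b4 : ρ ^ 2 ≤ ‖u'‖ ^ 2 := by gcongr
      have b5 : ((1 + ε) * ρ) ^ 2 ≤ ρ ^ 2 + 3 * ε * ρ ^ 2 := by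
        have : (1 + ε) ^ 2 ≤ 1 + 3 * ε := by nlinarith
        calc ((1 + ε) * ρ) ^ 2 = (1 + ε) ^ 2 * ρ ^ 2 := by ring
          _ ≤ (1 + 3 * ε) * ρ ^ 2 := by gcongr
          _ = _ := by ring
      rw [abs_le]
      constructor <;> linarith
    have h2 : ρ ^ 2 ≤ M ^ 2 := by gcongr
    have h3 : ρ * M ≤ M ^ 2 := by nlinarith
    rw [e]
    refine (abs_sub _ _).trans ?_
    rw [abs_mul, abs_of_pos (by norm_num : (0 : ℝ) < 2)]
    nlinarith
  have hmm : |a ^ 2 - a' ^ 2| ≤ 44 * ε * (min a a') ^ 2 := by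
    have : M ≤ 2 * min a a' := by
      rcases min_choice a a' with h | h <;> rw [h] <;> assumption
    have h2 : M ^ 2 ≤ (2 * min a a') ^ 2 := by gcongr
    nlinarith
  have hmin0 : 0 < min a a' := lt_min ha0 ha0'
  have hfin : |a - a'| ≤ 22 * ε * min a a' := by
    have h1 : |a ^ 2 - a' ^ 2| = |a - a'| * (a + a') := by
      rw [show a ^ 2 - a' ^ 2 = (a - a') * (a + a') by ring, abs_mul,
        abs_of_pos (by positivity : 0 < a + a')]
    have h2 : 2 * min a a' ≤ a + a' := by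
      have := min_le_left a a'
      have := min_le_right a a'
      linarith
    have h3 : |a - a'| * (2 * min a a') ≤ 44 * ε * (min a a') ^ 2 := by
      calc |a - a'| * (2 * min a a') ≤ |a - a'| * (a + a') := by gcongr
        _ = |a ^ 2 - a' ^ 2| := h1.symm
        _ ≤ _ := hmm
    have h4 : (|a - a'| - 22 * ε * min a a') * (2 * min a a') ≤ 0 := by nlinarith
    by_contra hcon
    push Not at hcon
    have : 0 < (|a - a'| - 22 * ε * min a a') * (2 * min a a') := by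
      apply mul_pos <;> linarith
    linarith
  refine (abs_S_sub a a' ha0.le ha0'.le).trans ?_
  rw [div_le_iff₀ (by linarith)]
  nlinarith

lemma close_of_good {ι : Type v} (y : ι → H) (ε : ℝ) (hε : 0 < ε) (hε1 : ε ≤ 1 / 2) {K m B : ℕ}
    (x x' : H) (c : Code ι K m B) (h : Good y ε x c) (h' : Good y ε x' c) (i : ι) :
    |S ‖x - y i‖ - S ‖x' - y i‖| ≤ 22 * ε := by
  obtain ⟨i0, c | c⟩ := c
  · obtain ⟨j, k, c⟩ := c
    obtain ⟨h1, h2, h3, h4, h5⟩ := h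
    obtain ⟨-, h2', h3', h4', h5'⟩ := h'
    have e : x - y i = (x - y i0) - (y i - y i0) := by abel
    have e' : x' - y i = (x' - y i0) - (y i - y i0) := by abel
    rw [e, e']
    refine close_scale ε _ hε (by linarith) h1 (x - y i0) (x' - y i0) (y i - y i0) _ h2 h3 h2' h3'
      ?_ ?_ (h5 i) (h5' i)
    · rw [← e]; exact h4 i
    · rw [← e']; exact h4' i
  · obtain ⟨a, b⟩ := c
    obtain ⟨h1, h2, h3, h4⟩ := h
    obtain ⟨h1', h2', h3', h4'⟩ := h'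
    have e : x - y i = (x - y i0) - (y i - y i0) := by abel
    have e' : x' - y i = (x' - y i0) - (y i - y i0) := by abel
    by_cases hi : ‖y i - y i0‖ ≤ ‖y a - y i0‖
    · have key : ∀ z : H, (∀ i, ‖z - y i0‖ ≤ ‖z - y i‖) → ‖y i - y i0‖ ≤ ε * ‖z - y i0‖ →
          |S ‖z - y i‖ - S ‖z - y i0‖| ≤ ε := by
        intro z hz hz2
        refine (abs_S_sub _ _ (norm_nonneg _) (norm_nonneg _)).trans ?_
        have e : z - y i = (z - y i0) - (y i - y i0) := by abel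
        have h5 : ‖z - y i‖ ≤ ‖z - y i0‖ + ‖y i - y i0‖ := by rw [e]; exact norm_sub_le _ _
        have h6 := hz i
        rw [min_eq_right h6, abs_of_nonneg (by linarith)]
        have h7 := norm_nonneg (z - y i0)
        rw [div_le_iff₀ (by linarith)]
        nlinarith
      have k1 := key x h1 (h2 i hi)
      have k2 := key x' h1' (h2' i hi)
      rw [abs_le] at *
      constructor <;> linarith [k1.1, k1.2, k2.1, k2.2, h4.1, h4.2, h4'.1, h4'.2]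
    · push Not at hi
      have key : ∀ z : H, ‖z - y i0‖ ≤ ε * ‖y i - y i0‖ →
          |S ‖z - y i‖ - S ‖y i - y i0‖| ≤ 2 * ε := by
        intro z hz2
        refine (abs_S_sub _ _ (norm_nonneg _) (norm_nonneg _)).trans ?_
        have h5 : |‖z - y i‖ - ‖y i - y i0‖| ≤ ‖z - y i0‖ := by
          have := abs_norm_sub_norm_le (z - y i) (y i0 - y i)
          rw [norm_sub_rev (y i0) (y i)] at this
          refine this.trans (le_of_eq ?_)
          congr 1; abel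
        have h7 := norm_nonneg (y i - y i0)
        have h8 : (1 - ε) * ‖y i - y i0‖ ≤ min ‖z - y i‖ ‖y i - y i0‖ := by
          rw [abs_le] at h5
          apply le_min
          · nlinarith
          · nlinarith
        have h9 : ‖y i - y i0‖ ≤ 2 * min ‖z - y i‖ ‖y i - y i0‖ := by nlinarith
        have h10 := mul_le_mul_of_nonneg_left h9 hε.le
        rw [div_le_iff₀ (by linarith)]
        linarith
      have k1 := key x (h3 i hi)
      have k2 := key x' (h3' i hi)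
      rw [abs_le] at *
      constructor <;> linarith [k1.1, k1.2, k2.1, k2.2]

lemma exists_good {ι : Type v} [Finite ι] [Nonempty ι] (y : ι → H) (ε : ℝ) (hε : 0 < ε)
    (hε1 : ε ≤ 1 / 2) {K m B : ℕ} (hK : 1 / ε ^ 2 ≤ (1 + ε) ^ K) (hm : 1 ≤ m * ε ^ 2)
    (hB : 2 / ε + 1 ≤ B) (x : H) : ∃ c : Code ι K m B, Good y ε x c := by
  obtain ⟨i0, hi0⟩ := Finite.exists_min (fun i => ‖x - y i‖)
  by_cases hA : ∃ j, ε * ‖x - y i0‖ < ‖y j - y i0‖ ∧ ε * ‖y j - y i0‖ < ‖x - y i0‖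
  · obtain ⟨j, hj1, hj2⟩ := hA
    have hr : 0 < ‖x - y i0‖ := by
      have := norm_nonneg (y j - y i0)
      nlinarith
    have hd : 0 < ‖y j - y i0‖ := by nlinarith
    have hed : 0 < ε * ‖y j - y i0‖ := by positivity
    obtain ⟨k, hk1, hk2⟩ := exists_nat_pow_near
      (show 1 ≤ ‖x - y i0‖ / (ε * ‖y j - y i0‖) by rw [le_div_iff₀ hed]; linarith)
      (show (1 : ℝ) < 1 + ε by linarith)
    rw [le_div_iff₀ hed] at hk1
    rw [div_lt_iff₀ hed] at hk2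
    have hkK : k < K := by
      by_contra hcon
      push Not at hcon
      have h1 : (1 + ε) ^ K ≤ (1 + ε) ^ k := pow_le_pow_right₀ (by linarith) hcon
      have h2 : 1 / ε ^ 2 * (ε * ‖y j - y i0‖) ≤ ‖x - y i0‖ := by
        refine le_trans ?_ hk1
        gcongr
        exact hK.trans h1
      have h3 : 1 / ε ^ 2 * (ε * ‖y j - y i0‖) = ‖y j - y i0‖ / ε := by
        field_simp
      rw [h3, div_le_iff₀ hε] at h2
      linarith
    set ρ := ε * ‖y j - y i0‖ * (1 + ε) ^ k with hρdef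
    have hρ : 0 < ρ := by positivity
    have hρ1 : ρ ≤ ‖x - y i0‖ := by rw [hρdef]; linarith
    have hρ2 : ‖x - y i0‖ ≤ (1 + ε) * ρ := by
      rw [hρdef]
      refine hk2.le.trans (le_of_eq ?_)
      ring
    have hw : ∀ i, ‖(max ρ ‖y i - y i0‖)⁻¹ • (y i - y i0)‖ ≤ 1 := by
      intro i
      rw [norm_smul, norm_inv, Real.norm_eq_abs, abs_of_pos (lt_of_lt_of_le hρ (le_max_left _ _)),
        inv_mul_le_iff₀ (lt_of_lt_of_le hρ (le_max_left _ _)), mul_one]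
      exact le_max_right _ _
    have hu : ‖(2 * ρ)⁻¹ • (x - y i0)‖ ≤ 1 := by
      rw [norm_smul, norm_inv, Real.norm_eq_abs, abs_of_pos (by positivity : 0 < 2 * ρ),
        inv_mul_le_iff₀ (by positivity), mul_one]
      nlinarith
    obtain ⟨c, hc⟩ := sparse (fun i => (max ρ ‖y i - y i0‖)⁻¹ • (y i - y i0)) hw ε hε m
      ((2 * ρ)⁻¹ • (x - y i0)) (by
        have := norm_nonneg ((2 * ρ)⁻¹ • (x - y i0))
        nlinarith)
    exact ⟨(i0, Sum.inl (j, ⟨k, hkK⟩, c)), hρ, hρ1, hρ2, hi0, hc⟩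
  · push Not at hA
    obtain ⟨a, ha1, ha2⟩ : ∃ a, ‖y a - y i0‖ ≤ ε * ‖x - y i0‖ ∧
        ∀ i, ‖y i - y i0‖ ≤ ε * ‖x - y i0‖ → ‖y i - y i0‖ ≤ ‖y a - y i0‖ := by
      have : Nonempty {i // ‖y i - y i0‖ ≤ ε * ‖x - y i0‖} :=
        ⟨⟨i0, by simp; positivity⟩⟩
      obtain ⟨⟨a, ha⟩, h⟩ := Finite.exists_max
        (fun i : {i // ‖y i - y i0‖ ≤ ε * ‖x - y i0‖} => ‖y i - y i0‖)
      exact ⟨a, ha, fun i hi => h ⟨i, hi⟩⟩
    have hS := abs_le.1 (abs_S_le ‖x - y i0‖)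
    have hnn : 0 ≤ (S ‖x - y i0‖ + 1) / ε := div_nonneg (by linarith [hS.1]) hε.le
    set b := ⌊(S ‖x - y i0‖ + 1) / ε⌋₊ with hb
    have hb1 : (b : ℝ) ≤ (S ‖x - y i0‖ + 1) / ε := Nat.floor_le hnn
    have hb2 : (S ‖x - y i0‖ + 1) / ε < b + 1 := Nat.lt_floor_add_one _
    have hbB : b < B := by
      have : (b : ℝ) < B := by
        refine lt_of_le_of_lt hb1 ?_
        have : (S ‖x - y i0‖ + 1) / ε ≤ 2 / ε := by
          gcongr; linarith [hS.2]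
        linarith
      exact_mod_cast this
    refine ⟨(i0, Sum.inr (a, ⟨b, hbB⟩)), hi0, ?_, ?_, ?_⟩
    · intro i hi
      exact hi.trans ha1
    · intro i hi
      by_contra hcon
      push Not at hcon
      by_cases h1 : ε * ‖x - y i0‖ < ‖y i - y i0‖
      · exact absurd (hA i h1) (not_le.2 hcon)
      · push Not at h1
        exact absurd (ha2 i h1) (not_le.2 hi)
    · rw [le_div_iff₀ hε] at hb1
      rw [div_lt_iff₀ hε] at hb2
      show |S ‖x - y i0‖ - (-1 + (b : ℝ) * ε)| ≤ ε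
      rw [abs_le]
      constructor <;> nlinarith

/-- Polynomial bound for the number of patterns of `S ‖· - y i‖`, uniform over all
configurations. -/
theorem geom (η : ℝ) (hη : 0 < η) : ∃ C m : ℕ, ∀ (ι : Type) [Fintype ι] [Nonempty ι] (y : ι → H)
    (F : Finset H), (∀ x ∈ F, ∀ x' ∈ F, x ≠ x' → ∃ i, η ≤ |S ‖x - y i‖ - S ‖x' - y i‖|) →
      F.card ≤ C * Fintype.card ι ^ m := by
  obtain ⟨ε, hε, hε1, hε2⟩ : ∃ ε : ℝ, 0 < ε ∧ ε ≤ 1 / 2 ∧ 22 * ε < η := by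
    refine ⟨min (1 / 2) (η / 23), by positivity, min_le_left _ _, ?_⟩
    have : min (1 / 2) (η / 23) ≤ η / 23 := min_le_right _ _
    linarith
  obtain ⟨K, hK⟩ := pow_unbounded_of_one_lt (1 / ε ^ 2) (show (1 : ℝ) < 1 + ε by linarith)
  obtain ⟨m, hm⟩ := exists_nat_ge (1 / ε ^ 2)
  obtain ⟨B, hB⟩ := exists_nat_ge (2 / ε + 1)
  have hm' : 1 ≤ m * ε ^ 2 := by
    rwa [div_le_iff₀ (by positivity)] at hm
  refine ⟨K * 3 ^ m + B, m + 2, ?_⟩
  intro ι _ _ y F hF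
  classical
  choose code hcode using exists_good (K := K) (m := m) (B := B) y ε hε hε1 hK.le hm' hB
  have hinj : Set.InjOn code (F : Set H) := by
    intro x hx x' hx' hxx
    by_contra hne
    obtain ⟨i, hi⟩ := hF x hx x' hx' hne
    have := close_of_good y ε hε hε1 x x' (code x) (hcode x) (by rw [hxx]; exact hcode x') i
    linarith
  have h1 : F.card ≤ Fintype.card (Code ι K m B) := by
    rw [← Finset.card_image_of_injOn hinj]
    exact Finset.card_le_univ _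
  refine h1.trans ?_
  have h2 : Fintype.card (Code ι K m B) = Fintype.card ι * (Fintype.card ι * (K *
      (Fintype.card ι * 3) ^ m) + Fintype.card ι * B) := by
    simp [Code, Fintype.card_prod, Fintype.card_sum]
  rw [h2]
  have h3 : 1 ≤ Fintype.card ι := Fintype.card_pos
  set N := Fintype.card ι
  have h4 : N * (N * (K * (N * 3) ^ m) + N * B) = K * 3 ^ m * N ^ (m + 2) + B * N ^ 2 := by
    rw [mul_pow]; ring
  rw [h4, add_mul]
  have h5 : N ^ 2 ≤ N ^ (m + 2) := pow_le_pow_right₀ h3 (by omega)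
  gcongr

end Pool.Agent.Y322.Null
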