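import Mathlib
import Pool.Agent.Y322.Null.Geom

set_option autoImplicit false

namespace Pool.Agent.Y322.Null

open Real Filter Topology
open scoped Nat

/-- `exp (2 π i n / j!)` -/
noncomputable def ex (n : ℤ) (j : ℕ) : ℂ := Complex.exp (Complex.I * ((2 * π * n / j ! : ℝ) : ℂ))

lemma norm_ex (n : ℤ) (j : ℕ) : ‖ex n j‖ = 1 := by
  unfold ex
  rw [mul_comm]
  exact Complex.norm_exp_ofReal_mul_I _

lemma ex_add (n m : ℤ) (j : ℕ) : ex (n + m) j = ex n j * ex m j := by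
  unfold ex
  rw [← Complex.exp_add]
  congr 1
  push_cast
  ring

lemma ex_zero (j : ℕ) : ex 0 j = 1 := by simp [ex]

lemma norm_ex_sub (n m : ℤ) (j : ℕ) : ‖ex n j - ex m j‖ = ‖ex (n - m) j - 1‖ := by
  have : ex n j = ex (n - m) j * ex m j := by rw [← ex_add]; simp
  rw [this, show ex (n - m) j * ex m j - ex m j = (ex (n - m) j - 1) * ex m j by ring, norm_mul,
    norm_ex, mul_one]

lemma norm_ex_sub_one_le (n : ℤ) (j : ℕ) : ‖ex n j - 1‖ ≤ 2 * π * |(n : ℝ)| / j ! := by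
  unfold ex
  refine (Real.norm_exp_I_mul_ofReal_sub_one_le).trans (le_of_eq ?_)
  rw [Real.norm_eq_abs, abs_div, abs_mul, abs_of_pos (by positivity : 0 < 2 * π),
    abs_of_pos (by positivity : (0 : ℝ) < j !)]

lemma summable_sq (n : ℤ) : Summable fun j : ℕ => ‖ex n j - 1‖ ^ 2 := by
  have h1 : Summable fun j : ℕ => (2 * π * |(n : ℝ)|) ^ 2 * (1 ^ j / j ! : ℝ) :=
    (Real.summable_pow_div_factorial 1).mul_left _
  refine Summable.of_nonneg_of_le (fun j => by positivity) (fun j => ?_) h1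
  have h2 := norm_ex_sub_one_le n j
  have h3 : ‖ex n j - 1‖ ^ 2 ≤ (2 * π * |(n : ℝ)| / j !) ^ 2 := by gcongr
  refine h3.trans ?_
  rw [div_pow, one_pow, mul_one_div]
  have h4 : (1 : ℝ) ≤ j ! := by exact_mod_cast Nat.one_le_iff_ne_zero.2 (Nat.factorial_ne_zero j)
  gcongr
  nlinarith

/-- the Hilbert space -/
abbrev Hs : Type := lp (fun _ : ℕ => ℂ) 2

lemma memℓp_b (n : ℤ) : Memℓp (fun j : ℕ => ex n j - 1) 2 := by
  apply memℓp_gen
  simpa using summable_sq n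

/-- the orbit of `0` under an affine isometry -/
noncomputable def b (n : ℤ) : Hs := ⟨fun j : ℕ => ex n j - 1, memℓp_b n⟩

lemma b_apply (n : ℤ) (j : ℕ) : (b n : ∀ _ : ℕ, ℂ) j = ex n j - 1 := rfl

lemma norm_sq_lp (x : Hs) : ‖x‖ ^ 2 = ∑' j, ‖(x : ∀ _ : ℕ, ℂ) j‖ ^ 2 := by
  have := lp.norm_rpow_eq_tsum (p := 2) (E := fun _ : ℕ => ℂ) (by norm_num) x
  simpa using this

lemma norm_b_sq (n : ℤ) : ‖b n‖ ^ 2 = ∑' j, ‖ex n j - 1‖ ^ 2 := by
  rw [norm_sq_lp]; rfl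

lemma norm_b_sub (n m : ℤ) : ‖b n - b m‖ = ‖b (n - m)‖ := by
  have h : ‖b n - b m‖ ^ 2 = ‖b (n - m)‖ ^ 2 := by
    rw [norm_b_sq, norm_sq_lp]
    congr 1
    funext j
    rw [lp.coeFn_sub, Pi.sub_apply, b_apply, b_apply]
    congr 1
    rw [← norm_ex_sub]
    congr 1
    ring
  have h1 := norm_nonneg (b n - b m)
  have h2 := norm_nonneg (b (n - m))
  exact (pow_left_inj₀ h1 h2 two_ne_zero).1 h

lemma b_zero : b 0 = 0 := by
  ext j
  rw [b_apply, ex_zero]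
  simp

lemma norm_b_add_sub (n m : ℤ) : |‖b (n + m)‖ - ‖b n‖| ≤ ‖b m‖ := by
  have h1 := abs_norm_sub_norm_le (b (n + m)) (b n)
  rw [norm_b_sub] at h1
  simpa using h1

lemma norm_b_neg (n : ℤ) : ‖b (-n)‖ = ‖b n‖ := by
  have h := norm_b_sub 0 n
  rw [b_zero, zero_sub, norm_neg, zero_sub] at h
  exact h.symm

lemma ex_factorial (k j : ℕ) (h : j ≤ k) : ex (k ! : ℤ) j = 1 := by
  obtain ⟨c, hc⟩ := Nat.factorial_dvd_factorial h
  unfold ex
  have h0 : ((j ! : ℕ) : ℝ) ≠ 0 := by exact_mod_cast Nat.factorial_ne_zero j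
  have : (2 * π * ((k ! : ℕ) : ℤ) / j ! : ℝ) = c * (2 * π) := by
    rw [hc]
    push_cast
    field_simp
  rw [this]
  have h2 : Complex.I * ((c * (2 * π) : ℝ) : ℂ) = c * (2 * π * Complex.I) := by push_cast; ring
  rw [h2]
  exact Complex.exp_nat_mul_two_pi_mul_I c

lemma tendsto_b_factorial : Tendsto (fun k : ℕ => ‖b (k ! : ℤ)‖) atTop (𝓝 0) := by
  have h : Tendsto (fun k : ℕ => ‖b (k ! : ℤ)‖ ^ 2) atTop (𝓝 (∑' _ : ℕ, (0 : ℝ))) := by
    simp only [norm_b_sq]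
    apply tendsto_tsum_of_dominated_convergence
      (bound := fun j : ℕ => (2 * π) ^ 2 * (1 / (j : ℝ) ^ 2))
    · exact (Real.summable_one_div_nat_pow.2 (by norm_num)).mul_left _
    · intro j
      refine tendsto_const_nhds.congr' ?_
      filter_upwards [eventually_ge_atTop j] with k hk
      rw [ex_factorial k j hk]
      simp
    · filter_upwards with k
      intro j
      rw [Real.norm_eq_abs, abs_of_nonneg (sq_nonneg _)]
      rcases le_or_gt j k with h | h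
      · rw [ex_factorial k j h]
        have h0 : (0 : ℝ) ≤ (2 * π) ^ 2 * (1 / (j : ℝ) ^ 2) := by positivity
        rw [sub_self, norm_zero, zero_pow two_ne_zero]
        exact h0
      · have h1 := norm_ex_sub_one_le (k ! : ℤ) j
        have hj : 0 < j := by omega
        have h2 : 2 * π * |(((k ! : ℕ) : ℤ) : ℝ)| / j ! ≤ 2 * π * (1 / j) := by
          rw [mul_div_assoc]
          have h3 : |(((k ! : ℕ) : ℤ) : ℝ)| / j ! ≤ 1 / j := by
            rw [abs_of_nonneg (by positivity)]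
            rw [div_le_div_iff₀ (by positivity) (by exact_mod_cast hj)]
            have h4 : k ! * j ≤ j ! := by
              obtain ⟨i, rfl⟩ : ∃ i, j = i + 1 := ⟨j - 1, by omega⟩
              rw [Nat.factorial_succ, mul_comm]
              exact Nat.mul_le_mul_left _ (Nat.factorial_le (by omega))
            have h5 : ((k ! : ℕ) : ℝ) * (j : ℝ) ≤ ((j ! : ℕ) : ℝ) := by exact_mod_cast h4
            simpa using h5
          gcongr
        calc ‖ex (k ! : ℤ) j - 1‖ ^ 2 ≤ (2 * π * (1 / j)) ^ 2 := by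
              gcongr; exact h1.trans h2
          _ = (2 * π) ^ 2 * (1 / (j : ℝ) ^ 2) := by ring
  rw [tsum_zero] at h
  have h2 := h.sqrt
  simpa using h2

lemma ex_nat (n j : ℕ) : ex n j = ex 1 j ^ n := by
  induction n with
  | zero => simp [ex_zero]
  | succ n ih =>
    have : ((n + 1 : ℕ) : ℤ) = (n : ℤ) + 1 := by push_cast; ring
    rw [this, ex_add, ih, pow_succ]

lemma ex_one_ne (j : ℕ) (hj : 2 ≤ j) : ex 1 j ≠ 1 := by
  have h0 : j ! ≠ 0 := Nat.factorial_ne_zero j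
  have h := Complex.isPrimitiveRoot_exp (j !) h0
  have e : ex 1 j = Complex.exp (2 * π * Complex.I / (j ! : ℕ)) := by
    unfold ex
    congr 1
    push_cast
    ring
  rw [e]
  apply h.ne_one
  have := Nat.self_le_factorial j
  omega

lemma norm_sub_one_sq (z : ℂ) (hz : ‖z‖ = 1) : ‖z - 1‖ ^ 2 = 2 - 2 * z.re := by
  have h1 : ‖z‖ ^ 2 = 1 := by rw [hz]; norm_num
  rw [Complex.sq_norm, Complex.normSq_apply] at h1 ⊢
  simp only [Complex.sub_re, Complex.one_re, Complex.sub_im, Complex.one_im, sub_zero]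
  nlinarith

lemma sum_ex (k j : ℕ) (hj : 2 ≤ j) (hk : j ≤ k) :
    ∑ n ∈ Finset.range (k !), ‖ex (n : ℤ) j - 1‖ ^ 2 = 2 * (k ! : ℝ) := by
  have h1 : ∀ n ∈ Finset.range (k !), ‖ex (n : ℤ) j - 1‖ ^ 2 = 2 - 2 * (ex 1 j ^ n).re := by
    intro n _
    rw [norm_sub_one_sq _ (norm_ex _ _), ex_nat]
  rw [Finset.sum_congr rfl h1, Finset.sum_sub_distrib, ← Finset.mul_sum, ← Complex.re_sum,
    geom_sum_eq (ex_one_ne j hj), ← ex_nat]
  have h2 : ex ((k ! : ℕ) : ℤ) j = 1 := ex_factorial k j hk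
  rw [h2]
  simp [mul_comm]

lemma unbounded (R : ℝ) : ∃ n : ℕ, R ≤ ‖b n‖ := by
  by_contra hcon
  push Not at hcon
  have hR : 0 ≤ R := (norm_nonneg _).trans (hcon 0).le
  obtain ⟨k, hk⟩ := exists_nat_ge (R ^ 2 + 1)
  have h1 : ∀ n : ℕ, ∑ j ∈ Finset.Icc 2 (k + 1), ‖ex (n : ℤ) j - 1‖ ^ 2 ≤ R ^ 2 := by
    intro n
    have h2 := (summable_sq n).sum_le_tsum (Finset.Icc 2 (k + 1)) (fun j _ => by positivity)
    rw [← norm_b_sq] at h2
    have h3 := hcon n
    have h4 : ‖b (n : ℤ)‖ ^ 2 ≤ R ^ 2 := by gcongr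
    exact h2.trans h4
  have h2 : ∑ n ∈ Finset.range ((k + 1)!), ∑ j ∈ Finset.Icc 2 (k + 1), ‖ex (n : ℤ) j - 1‖ ^ 2
      ≤ ((k + 1)! : ℝ) * R ^ 2 := by
    refine (Finset.sum_le_sum fun n _ => h1 n).trans ?_
    simp
  rw [Finset.sum_comm] at h2
  have h3 : ∑ j ∈ Finset.Icc 2 (k + 1), ∑ n ∈ Finset.range ((k + 1)!), ‖ex (n : ℤ) j - 1‖ ^ 2 =
      k * (2 * ((k + 1)! : ℝ)) := by
    rw [Finset.sum_congr rfl fun j hj => sum_ex (k + 1) j (Finset.mem_Icc.1 hj).1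
      (Finset.mem_Icc.1 hj).2]
    simp
  rw [h3] at h2
  have h4 : (0 : ℝ) < (k + 1)! := by positivity
  have h5 : (k : ℝ) * 2 ≤ R ^ 2 := by
    by_contra h6
    push Not at h6
    have := mul_lt_mul_of_pos_left h6 h4
    linarith
  nlinarith

lemma exists_near (R : ℝ) (hR : 0 < R) : ∃ n : ℕ, R ≤ ‖b n‖ ∧ ‖b n‖ ≤ R + ‖b 1‖ := by
  classical
  have h := unbounded R
  refine ⟨Nat.find h, Nat.find_spec h, ?_⟩
  have hpos : 0 < Nat.find h := by
    rw [Nat.find_pos]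
    simp only [Nat.cast_zero, b_zero, norm_zero]
    linarith
  have h1 : ‖b ((Nat.find h - 1 : ℕ) : ℤ)‖ < R := not_le.1 (Nat.find_min h (by omega))
  have h2 := norm_b_add_sub ((Nat.find h - 1 : ℕ) : ℤ) 1
  have h3 : (((Nat.find h - 1 : ℕ) : ℤ) + 1) = (Nat.find h : ℤ) := by
    have : Nat.find h - 1 + 1 = Nat.find h := by omega
    exact_mod_cast this
  rw [h3] at h2
  have := (abs_le.1 h2).2
  linarith

/-- the sequence -/
noncomputable def f (n : ℤ) : ℝ := S ‖b n‖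

lemma abs_f_le (n : ℤ) : |f n| ≤ 1 := abs_S_le _

lemma f_add_factorial (n : ℤ) : Tendsto (fun k : ℕ => f (n + k !)) atTop (𝓝 (f n)) := by
  rw [tendsto_iff_dist_tendsto_zero]
  refine squeeze_zero (fun _ => dist_nonneg) (fun k => ?_) tendsto_b_factorial
  rw [Real.dist_eq]
  unfold f
  refine (abs_S_sub _ _ (norm_nonneg _) (norm_nonneg _)).trans ?_
  have h1 := norm_b_add_sub n (k ! : ℤ)
  refine (div_le_self (abs_nonneg _) ?_).trans h1
  have := le_min (norm_nonneg (b (n + (k ! : ℤ)))) (norm_nonneg (b n))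
  linarith

/-- for a sequence `R k → ∞` on which `S` is constant there are times near which `f` is almost
constant -/
lemma exists_const (θ : ℝ) (L : ℕ) (ε : ℝ) (hε : 0 < ε) :
    ∃ n : ℕ, ∀ m : ℕ, m ≤ L → |f (n + m) - sin θ| < ε := by
  obtain ⟨A, hA⟩ : ∃ A : ℝ, ∀ m : ℕ, m ≤ L → ‖b m‖ ≤ A := by
    refine ⟨∑ m ∈ Finset.range (L + 1), ‖b (m : ℤ)‖, fun m hm => ?_⟩
    exact Finset.single_le_sum (f := fun m : ℕ => ‖b (m : ℤ)‖) (fun _ _ => norm_nonneg _)
      (Finset.mem_range.2 (by omega))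
  have hA0 : 0 ≤ A := (norm_nonneg _).trans (hA 0 (Nat.zero_le _))
  set D := A + ‖b 1‖ with hD
  have hD0 : 0 ≤ D := add_nonneg hA0 (norm_nonneg _)
  -- choose the radius
  obtain ⟨R, hR1, hR2, hR3⟩ : ∃ R : ℝ, D + D / ε + 1 < R ∧ 0 < R ∧ S R = sin θ := by
    have ht : Tendsto (fun k : ℕ => Real.exp (θ + k * (2 * π)) - 1) atTop atTop := by
      have h1 : Tendsto (fun k : ℕ => θ + (k : ℝ) * (2 * π)) atTop atTop :=
        tendsto_atTop_add_const_left _ _
          ((tendsto_natCast_atTop_atTop (R := ℝ)).atTop_mul_const (by positivity))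
      exact tendsto_atTop_add_const_right _ _ (Real.tendsto_exp_atTop.comp h1)
    obtain ⟨k, hk⟩ := (ht.eventually (eventually_gt_atTop (D + D / ε + 1))).exists
    refine ⟨_, hk, ?_, ?_⟩
    · have : 0 ≤ D / ε := by positivity
      linarith
    · unfold S
      rw [show 1 + (Real.exp (θ + k * (2 * π)) - 1) = Real.exp (θ + k * (2 * π)) by ring,
        Real.log_exp]
      exact Real.sin_add_nat_mul_two_pi θ k
  obtain ⟨n, hn1, hn2⟩ := exists_near R hR2
  refine ⟨n, fun m hm => ?_⟩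
  rw [← hR3]
  unfold f
  refine lt_of_le_of_lt (abs_S_sub _ _ (norm_nonneg _) hR2.le) ?_
  have h1 := abs_le.1 (norm_b_add_sub (n : ℤ) (m : ℤ))
  have h2 := hA m hm
  have hb := norm_nonneg (b 1)
  have h3 : |‖b ((n : ℤ) + m)‖ - R| ≤ D := by
    rw [abs_le]
    constructor <;> linarith [h1.1, h1.2]
  have h4 : R - D ≤ min ‖b ((n : ℤ) + m)‖ R := by
    have := (abs_le.1 h3).1
    exact le_min (by linarith) (by linarith)
  have h5 : 0 ≤ D / ε := by positivity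
  rw [div_lt_iff₀ (by linarith)]
  have h6 : D = ε * (D / ε) := by field_simp
  nlinarith

end Pool.Agent.Y322.Null
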