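import Mathlib
import Pool.Agent.Y322.Null.Seq

set_option autoImplicit false

namespace Pool.Agent.Y322.Null

open Real Filter Topology
open scoped Nat

/-- the orbit of the sequence `f` under the shift -/
noncomputable def orb (n : ℕ) : ℕ → ℝ := fun m => f ((n : ℤ) + m)

/-- the orbit closure -/
def XX : Set (ℕ → ℝ) := closure (Set.range orb)

lemma isCompact_XX : IsCompact XX := by
  have h : XX ⊆ Set.pi Set.univ (fun _ : ℕ => Set.Icc (-1 : ℝ) 1) := by
    apply closure_minimal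
    · rintro _ ⟨n, rfl⟩ m _
      exact abs_le.1 (abs_f_le _)
    · exact isClosed_set_pi fun _ _ => isClosed_Icc
  exact (isCompact_univ_pi fun _ => isCompact_Icc).of_isClosed_subset isClosed_closure h

instance : CompactSpace XX := isCompact_iff_compactSpace.1 isCompact_XX

/-- the shift on all sequences -/
def sh (z : ℕ → ℝ) : ℕ → ℝ := fun m => z (m + 1)

lemma continuous_sh : Continuous sh := by
  unfold sh
  fun_prop

lemma sh_orb (n : ℕ) : sh (orb n) = orb (n + 1) := by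
  funext m
  unfold sh orb
  congr 1
  push_cast
  ring

lemma mapsTo_sh : Set.MapsTo sh XX XX := by
  have : Set.MapsTo sh (Set.range orb) (Set.range orb) := by
    rintro _ ⟨n, rfl⟩
    exact ⟨n + 1, (sh_orb n).symm⟩
  exact this.closure continuous_sh

/-- the shift on the orbit closure -/
def TT (z : XX) : XX := ⟨sh z, mapsTo_sh z.2⟩

lemma continuous_TT : Continuous TT :=
  (continuous_sh.comp continuous_subtype_val).subtype_mk _

lemma TT_iter (z : XX) (n m : ℕ) : (TT^[n] z : ℕ → ℝ) m = (z : ℕ → ℝ) (m + n) := by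
  induction n generalizing m with
  | zero => rfl
  | succ n ih =>
    rw [Function.iterate_succ_apply']
    show (TT^[n] z : ℕ → ℝ) (m + 1) = _
    rw [ih]
    have : m + 1 + n = m + (n + 1) := by omega
    rw [this]

/-- the orbit as points of `XX` -/
noncomputable def pt (n : ℕ) : XX := ⟨orb n, subset_closure ⟨n, rfl⟩⟩

lemma TT_pt (n k : ℕ) : TT^[k] (pt n) = pt (n + k) := by
  apply Subtype.ext
  funext m
  rw [TT_iter]
  show orb n (m + k) = orb (n + k) m
  unfold orb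
  congr 1
  push_cast
  ring

lemma dense_pt (U : Set XX) (hU : IsOpen U) (hne : U.Nonempty) : ∃ n, pt n ∈ U := by
  obtain ⟨V, hV, rfl⟩ := isOpen_induced_iff.1 hU
  obtain ⟨z, hz⟩ := hne
  obtain ⟨w, hw1, hw2⟩ := mem_closure_iff.1 z.2 V hV hz
  obtain ⟨n, rfl⟩ := hw2
  exact ⟨n, hw1⟩

lemma recur (n : ℕ) : Tendsto (fun k : ℕ => pt (n + k !)) atTop (𝓝 (pt n)) := by
  rw [tendsto_subtype_rng, tendsto_pi_nhds]
  intro m
  have h := f_add_factorial ((n : ℤ) + m)
  refine h.congr fun k => ?_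
  show f ((n : ℤ) + m + (k ! : ℕ)) = f (((n + k ! : ℕ) : ℤ) + m)
  congr 1
  push_cast
  ring

lemma visit (U : Set XX) (hU : IsOpen U) (hne : U.Nonempty) (N : ℕ) : ∃ n, N ≤ n ∧ pt n ∈ U := by
  obtain ⟨n, hn⟩ := dense_pt U hU hne
  have h := (recur n).eventually (hU.mem_nhds hn)
  obtain ⟨k, hk1, hk2⟩ := (h.and (eventually_ge_atTop N)).exists
  exact ⟨n + k !, by have := Nat.self_le_factorial k; omega, hk1⟩

lemma transitive (U V : Set XX) (hU : IsOpen U) (hV : IsOpen V) (hU' : U.Nonempty)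
    (hV' : V.Nonempty) : ∃ n : ℕ, 1 ≤ n ∧ (V ∩ TT^[n] ⁻¹' U).Nonempty := by
  obtain ⟨a, ha⟩ := dense_pt V hV hV'
  obtain ⟨c, hc1, hc2⟩ := visit U hU hU' (a + 1)
  refine ⟨c - a, by omega, pt a, ha, ?_⟩
  rw [Set.mem_preimage, TT_pt]
  have : a + (c - a) = c := by omega
  rwa [this]

lemma const_mem (θ : ℝ) : (fun _ : ℕ => sin θ) ∈ XX := by
  choose n hn using fun L : ℕ => exists_const θ L (1 / ((L : ℝ) + 1)) (by positivity)
  refine mem_closure_of_tendsto (f := fun L : ℕ => orb (n L)) (b := atTop) ?_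
    (Eventually.of_forall fun L => ⟨_, rfl⟩)
  rw [tendsto_pi_nhds]
  intro m
  rw [tendsto_iff_dist_tendsto_zero]
  refine squeeze_zero' (Eventually.of_forall fun _ => dist_nonneg) ?_
    (tendsto_one_div_add_atTop_nhds_zero_nat (𝕜 := ℝ))
  filter_upwards [eventually_ge_atTop m] with L hL
  rw [Real.dist_eq]
  exact (hn L m hL).le

/-- constant points are fixed -/
noncomputable def cst (θ : ℝ) : XX := ⟨fun _ => sin θ, const_mem θ⟩

lemma TT_cst (θ : ℝ) (n : ℕ) : TT^[n] (cst θ) = cst θ := by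
  apply Subtype.ext
  funext m
  rw [TT_iter]
  rfl

/-- A compatible metric is controlled by finitely many coordinates. -/
lemma coord (d : MetricSpace XX)
    (hd : d.toUniformSpace.toTopologicalSpace = instTopologicalSpaceSubtype)
    (ε : ℝ) (hε : 0 < ε) : ∃ M : ℕ, ∀ z w : XX,
      (∀ j ≤ M, |(z : ℕ → ℝ) j - (w : ℕ → ℝ) j| ≤ 1 / ((M : ℝ) + 1)) → d.dist z w < ε := by
  have hcont : Continuous fun p : XX × XX => d.dist p.1 p.2 := by
    have h := @continuous_dist XX d.toPseudoMetricSpace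
    rw [hd] at h
    exact h
  by_contra hcon
  push Not at hcon
  set t : ℕ → Set (XX × XX) := fun M => {p | (∀ j ≤ M, |(p.1 : ℕ → ℝ) j - (p.2 : ℕ → ℝ) j| ≤
    1 / ((M : ℝ) + 1)) ∧ ε ≤ d.dist p.1 p.2} with ht
  have hclosed : ∀ M, IsClosed (t M) := by
    intro M
    have e : t M = (⋂ j ∈ Set.Iic M, {p : XX × XX | |(p.1 : ℕ → ℝ) j - (p.2 : ℕ → ℝ) j| ≤
        1 / ((M : ℝ) + 1)}) ∩ {p | ε ≤ d.dist p.1 p.2} := by
      ext p
      simp [ht]
    rw [e]
    refine IsClosed.inter (isClosed_biInter fun j _ => ?_) (isClosed_le continuous_const hcont)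
    exact isClosed_le (((continuous_apply j).comp (continuous_subtype_val.comp continuous_fst)).sub
      ((continuous_apply j).comp (continuous_subtype_val.comp continuous_snd))).abs continuous_const
  have hne : (⋂ M, t M).Nonempty := by
    apply IsCompact.nonempty_iInter_of_sequence_nonempty_isCompact_isClosed
    · intro M p hp
      refine ⟨fun j hj => (hp.1 j (by omega)).trans ?_, hp.2⟩
      gcongr
      linarith
    · intro M
      obtain ⟨z, w, h1, h2⟩ := hcon M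
      exact ⟨(z, w), h1, h2⟩
    · exact (hclosed 0).isCompact
    · exact hclosed
  obtain ⟨⟨z, w⟩, hp⟩ := hne
  rw [Set.mem_iInter] at hp
  have heq : z = w := by
    apply Subtype.ext
    funext j
    have h1 : ∀ M : ℕ, j ≤ M → |(z : ℕ → ℝ) j - (w : ℕ → ℝ) j| ≤ 1 / ((M : ℝ) + 1) :=
      fun M hM => (hp M).1 j hM
    have h2 : |(z : ℕ → ℝ) j - (w : ℕ → ℝ) j| ≤ 0 := by
      refine ge_of_tendsto (tendsto_one_div_add_atTop_nhds_zero_nat (𝕜 := ℝ)) ?_
      filter_upwards [eventually_ge_atTop j] with M hM using h1 M hM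
    have h3 := abs_nonpos_iff.1 h2
    linarith
  have h4 := (hp 0).2
  have h5 : d.dist z w = 0 := by
    rw [heq]
    exact d.dist_self w
  rw [h5] at h4
  linarith

/-- The orbit closure has polynomially bounded complexity along every finite set of times. -/
lemma null_aux (η : ℝ) (hη : 0 < η) : ∃ C m : ℕ, ∀ (ι : Type) [Fintype ι] [Nonempty ι]
    (p : ι → ℕ) (F : Finset XX),
    (∀ z ∈ F, ∀ w ∈ F, z ≠ w → ∃ i, η < |(z : ℕ → ℝ) (p i) - (w : ℕ → ℝ) (p i)|) →
      F.card ≤ C * Fintype.card ι ^ m := by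
  obtain ⟨C, m, h⟩ := geom (H := Hs) (η / 2) (by positivity)
  refine ⟨C, m, ?_⟩
  intro ι _ _ p F hF
  classical
  -- approximate each point by a point of the orbit
  have happ : ∀ z : XX, ∃ n : ℕ, ∀ i, |(z : ℕ → ℝ) (p i) - f ((n : ℤ) + p i)| < η / 4 := by
    intro z
    set U : Set XX := {w | ∀ i, |(z : ℕ → ℝ) (p i) - (w : ℕ → ℝ) (p i)| < η / 4} with hU
    have hUo : IsOpen U := by
      have e : U = ⋂ i, {w : XX | |(z : ℕ → ℝ) (p i) - (w : ℕ → ℝ) (p i)| < η / 4} := by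
        ext w; simp [hU]
      rw [e]
      exact isOpen_iInter_of_finite fun i => isOpen_lt (continuous_const.sub
        ((continuous_apply (p i)).comp continuous_subtype_val)).abs continuous_const
    have hUn : U.Nonempty := ⟨z, fun i => by simpa using (by positivity : 0 < η / 4)⟩
    obtain ⟨n, hn⟩ := dense_pt U hUo hUn
    exact ⟨n, hn⟩
  choose t ht using happ
  have hkey : ∀ z ∈ F, ∀ w ∈ F, z ≠ w →
      ∃ i, η / 2 ≤ |S ‖b (t z) - b (-(p i : ℤ))‖ - S ‖b (t w) - b (-(p i : ℤ))‖| := by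
    intro z hz w hw hzw
    obtain ⟨i, hi⟩ := hF z hz w hw hzw
    refine ⟨i, ?_⟩
    have e1 : S ‖b (t z) - b (-(p i : ℤ))‖ = f ((t z : ℤ) + p i) := by
      rw [norm_b_sub, sub_neg_eq_add]; rfl
    have e2 : S ‖b (t w) - b (-(p i : ℤ))‖ = f ((t w : ℤ) + p i) := by
      rw [norm_b_sub, sub_neg_eq_add]; rfl
    rw [e1, e2]
    have h1 := ht z i
    have h2 := ht w i
    by_contra hcon
    push Not at hcon
    have h3 : |(z : ℕ → ℝ) (p i) - (w : ℕ → ℝ) (p i)| ≤ |(z : ℕ → ℝ) (p i) - f ((t z : ℤ) + p i)| +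
        |f ((t z : ℤ) + p i) - f ((t w : ℤ) + p i)| + |(w : ℕ → ℝ) (p i) - f ((t w : ℤ) + p i)| := by
      rw [abs_sub_comm ((w : ℕ → ℝ) (p i))]
      have := abs_add_three ((z : ℕ → ℝ) (p i) - f ((t z : ℤ) + p i))
        (f ((t z : ℤ) + p i) - f ((t w : ℤ) + p i)) (f ((t w : ℤ) + p i) - (w : ℕ → ℝ) (p i))
      refine le_trans (le_of_eq ?_) this
      congr 1; ring
    linarith
  have hinj : Set.InjOn (fun z : XX => b (t z)) (F : Set XX) := by
    intro z hz w hw hzw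
    by_contra hne
    obtain ⟨i, hi⟩ := hkey z hz w hw hne
    simp only at hzw
    rw [hzw] at hi
    simp at hi
    linarith
  rw [← Finset.card_image_of_injOn hinj]
  apply h ι (fun i => b (-(p i : ℤ)))
  intro x hx x' hx' hne
  obtain ⟨z, hz, rfl⟩ := Finset.mem_image.1 hx
  obtain ⟨w, hw, rfl⟩ := Finset.mem_image.1 hx'
  exact hkey z hz w hw (fun h => hne (by rw [h]))

lemma poly_exp (C m M : ℕ) (δ : ℝ) (hδ : 0 < δ) :
    ∀ᶠ n : ℕ in atTop, ((C * (n * (M + 1)) ^ m : ℕ) : ℝ) ≤ Real.exp (δ * n) := by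
  have h := isLittleO_pow_exp_pos_mul_atTop m hδ
  have h2 := h.comp_tendsto (tendsto_natCast_atTop_atTop (R := ℝ))
  have h3 := h2.def (c := 1 / ((C : ℝ) * ((M : ℝ) + 1) ^ m + 1)) (by positivity)
  filter_upwards [h3] with n hn
  simp only [Function.comp, Real.norm_eq_abs, abs_pow, Nat.abs_cast, abs_of_pos (Real.exp_pos _)] at hn
  have h4 : (0 : ℝ) < (C : ℝ) * ((M : ℝ) + 1) ^ m + 1 := by positivity
  rw [div_mul_eq_mul_div, le_div_iff₀ h4, one_mul] at hn
  push_cast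
  rw [mul_pow]
  have h5 : (0 : ℝ) ≤ (n : ℝ) ^ m := by positivity
  nlinarith

/-- The system is null. -/
lemma null (d : MetricSpace XX)
    (hd : d.toUniformSpace.toTopologicalSpace = instTopologicalSpaceSubtype)
    (a : ℕ → ℕ) (ε : ℝ) (hε : 0 < ε) (δ : ℝ) (hδ : 0 < δ) :
    ∀ᶠ n in atTop, ∀ F : Finset XX,
      (∀ x ∈ F, ∀ y ∈ F, x ≠ y → ∃ i < n, ε ≤ d.dist (TT^[a i] x) (TT^[a i] y)) →
      (F.card : ℝ) ≤ Real.exp (δ * n) := by
  obtain ⟨M, hM⟩ := coord d hd ε hε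
  obtain ⟨C, m, h⟩ := null_aux (1 / ((M : ℝ) + 1)) (by positivity)
  filter_upwards [poly_exp C m M δ hδ, eventually_ge_atTop 1] with n hn hn1 F hF
  refine le_trans ?_ hn
  have : Nonempty (Fin n) := ⟨⟨0, by omega⟩⟩
  have h1 := h (Fin n × Fin (M + 1)) (fun q => (q.2 : ℕ) + a q.1) F ?_
  · have h2 : Fintype.card (Fin n × Fin (M + 1)) = n * (M + 1) := by simp
    rw [h2] at h1
    exact_mod_cast h1
  · intro z hz w hw hzw
    obtain ⟨i, hi, hi2⟩ := hF z hz w hw hzw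
    by_contra hcon
    push Not at hcon
    have := hM (TT^[a i] z) (TT^[a i] w) (fun j hj => by
      rw [TT_iter, TT_iter]
      exact hcon (⟨i, hi⟩, ⟨j, by omega⟩))
    linarith

/-- A system with a point whose orbit comes close to two different fixed points is not mean
equicontinuous. -/
lemma not_mean_equicontinuous (X : Type) [MetricSpace X] (T : X → X) (x c c' : X) (hcc : c ≠ c')
    (hc : ∀ n, T^[n] c = c) (hc' : ∀ n, T^[n] c' = c')
    (hx : ∀ δ : ℝ, 0 < δ → ∃ n, dist (T^[n] x) c < δ)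
    (hx' : ∀ δ : ℝ, 0 < δ → ∃ n, dist (T^[n] x) c' < δ) :
    ∃ ε : ℝ, 0 < ε ∧ ∀ δ : ℝ, 0 < δ → ∃ z w : X, dist z w < δ ∧
      ¬ ∀ᶠ n in atTop, (∑ i ∈ Finset.range n, dist (T^[i] z) (T^[i] w)) / (n : ℝ) < ε := by
  have hD : 0 < dist c c' := dist_pos.2 hcc
  refine ⟨dist c c' / 4, by positivity, fun δ hδ => ?_⟩
  obtain ⟨n1, h1⟩ := hx δ hδ
  obtain ⟨n2, h2⟩ := hx' δ hδ
  by_contra hcon
  push Not at hcon
  have e1 := hcon _ _ h1
  have e2 := hcon _ _ h2
  simp only [hc, hc', ← Function.iterate_add_apply] at e1 e2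
  -- growth of the sums
  set A : ℝ := ∑ i ∈ Finset.range n1, dist (T^[i] x) c with hA
  set B : ℝ := ∑ i ∈ Finset.range n2, dist (T^[i] x) c' with hB
  have hA0 : 0 ≤ A := Finset.sum_nonneg fun _ _ => dist_nonneg
  have hB0 : 0 ≤ B := Finset.sum_nonneg fun _ _ => dist_nonneg
  have hsum : ∀ (k : ℕ) (u : X) (n : ℕ), ∑ i ∈ Finset.range n, dist (T^[i] x) u ≤
      (∑ i ∈ Finset.range k, dist (T^[i] x) u) + ∑ i ∈ Finset.range n, dist (T^[i + k] x) u := by
    intro k u n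
    have h3 : ∑ i ∈ Finset.range n, dist (T^[i + k] x) u =
        ∑ i ∈ Finset.Ico k (n + k), dist (T^[i] x) u := by
      rw [Finset.range_eq_Ico, Finset.sum_Ico_add' (fun i => dist (T^[i] x) u) 0 n k]
      simp
    rw [h3, Finset.range_eq_Ico, Finset.range_eq_Ico,
      Finset.sum_Ico_consecutive (fun i => dist (T^[i] x) u) (Nat.zero_le k) (by omega : k ≤ n + k)]
    rw [← Finset.range_eq_Ico, ← Finset.range_eq_Ico]
    exact Finset.sum_le_sum_of_subset_of_nonneg (Finset.range_mono (by omega))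
      (fun _ _ _ => dist_nonneg)
  obtain ⟨K, hK⟩ := exists_nat_gt ((A + B) / (dist c c' / 2))
  obtain ⟨n, ⟨hn1, hn2⟩, hn3⟩ := ((e1.and e2).and (eventually_ge_atTop (K + 1))).exists
  have hn0 : (0 : ℝ) < n := by
    have : 0 < n := by omega
    exact_mod_cast this
  rw [div_lt_iff₀ hn0] at hn1 hn2
  have s1 := hsum n1 c n
  have s2 := hsum n2 c' n
  have s3 : (n : ℝ) * dist c c' ≤ ∑ i ∈ Finset.range n, dist (T^[i] x) c +
      ∑ i ∈ Finset.range n, dist (T^[i] x) c' := by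
    rw [← Finset.sum_add_distrib]
    have : ∑ i ∈ Finset.range n, dist c c' = (n : ℝ) * dist c c' := by simp
    rw [← this]
    refine Finset.sum_le_sum fun i _ => ?_
    rw [dist_comm (T^[i] x) c]
    exact dist_triangle c (T^[i] x) c'
  have hK2 : (K : ℝ) ≤ n := by exact_mod_cast (by omega : K ≤ n)
  rw [div_lt_iff₀ (by positivity)] at hK
  nlinarith

theorem main :
    ¬ (∀ (X : Type) [MetricSpace X] [CompactSpace X] (T : X → X), Continuous T →
      (∀ U V : Set X, IsOpen U → IsOpen V → U.Nonempty → V.Nonempty →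
        ∃ n : ℕ, 1 ≤ n ∧ (V ∩ T^[n] ⁻¹' U).Nonempty) →
      (∀ a : ℕ → ℕ, StrictMono a → ∀ ε : ℝ, 0 < ε → ∀ δ : ℝ, 0 < δ →
        ∀ᶠ n in atTop, ∀ F : Finset X,
          (∀ x ∈ F, ∀ y ∈ F, x ≠ y → ∃ i < n, ε ≤ dist (T^[a i] x) (T^[a i] y)) →
          (F.card : ℝ) ≤ Real.exp (δ * n)) →
      ∀ ε : ℝ, 0 < ε → ∃ δ : ℝ, 0 < δ ∧ ∀ x y : X, dist x y < δ →
        ∀ᶠ n in atTop,
          (∑ i ∈ Finset.range n, dist (T^[i] x) (T^[i] y)) / (n : ℝ) < ε) := by
  intro h
  let d : MetricSpace XX := TopologicalSpace.metrizableSpaceMetric XX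
  have hd : d.toUniformSpace.toTopologicalSpace = instTopologicalSpaceSubtype := rfl
  have h1 := @h XX d inferInstance TT continuous_TT
    (fun U V hU hV hU' hV' => transitive U V hU hV hU' hV')
    (fun a _ ε hε δ hδ => null d hd a ε hε δ hδ)
  have hclose : ∀ θ : ℝ, ∀ δ : ℝ, 0 < δ → ∃ n, d.dist (TT^[n] (pt 0)) (cst θ) < δ := by
    intro θ δ hδ
    have hU : IsOpen {z : XX | d.dist z (cst θ) < δ} := by
      have := @Metric.isOpen_ball XX d.toPseudoMetricSpace (cst θ) δ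
      exact this
    obtain ⟨n, hn⟩ := dense_pt _ hU ⟨cst θ, by
      show d.dist (cst θ) (cst θ) < δ
      rw [d.dist_self]; exact hδ⟩
    exact ⟨n, by rw [TT_pt]; simpa using hn⟩
  have hne : cst 0 ≠ cst (π / 2) := by
    intro hcon
    have : (cst 0 : ℕ → ℝ) 0 = (cst (π / 2) : ℕ → ℝ) 0 := by rw [hcon]
    change sin 0 = sin (π / 2) at this
    simp at this
  obtain ⟨ε, hε, h2⟩ := @not_mean_equicontinuous XX d TT (pt 0) (cst 0) (cst (π / 2)) hne
    (TT_cst 0) (TT_cst _) (hclose 0) (hclose _)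
  obtain ⟨δ, hδ, h3⟩ := h1 ε hε
  obtain ⟨z, w, h4, h5⟩ := h2 δ hδ
  exact h5 (h3 z w h4)

end Pool.Agent.Y322.Null
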